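import Pool.Agent.R544.TS.Red

/-!
# Totally synchronizing digraphs: membership in coNP
-/

set_option autoImplicit false

namespace Pool.Agent.R544.TS

open Pool.Agent.NPC Pool.Agent.R544
open Pool.Agent.R544.TF (pp_exlt pp_alllt uPoly_3m)

/-- The head of the edge with the letter `a`, for a coloring given by a list of lists. -/
def nxc (I : Inst) (C : List (List ℕ)) (v a : ℕ) : ℕ :=
  (I.2.getD v []).getD ((C.getD v []).getD a 0) 0

/-- The list of a vertex is a bijection. -/
def BijL (I : Inst) (l : List ℕ) : Prop := l.length = I.1 ∧ l.Nodup ∧ ∀ x ∈ l, x < I.1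

/-- The test of a certificate against total synchronization: a coloring and a nonempty closed
set of pairs of different states. -/
def Ver (I : Inst) (w : List (List ℕ) × List (ℕ × ℕ)) : Prop :=
  ¬ IsOutRegular I ∨
    ((∀ v < I.2.length, BijL I (w.1.getD v [])) ∧ w.2 ≠ [] ∧
      ∀ p ∈ w.2, p.1 ≠ p.2 ∧ p.1 < I.2.length ∧ p.2 < I.2.length ∧
        ∀ a < (w.1.getD p.1 []).length, (nxc I w.1 p.1 a, nxc I w.1 p.2 a) ∈ w.2)

theorem pp_isOutRegular : PP IsOutRegular := by
  unfold IsOutRegular
  refine PP.and (PP.le (by fun_prop) (by fun_prop)) (PP.and (PP.ne (by fun_prop) (by fun_prop)) ?_)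
  refine PP.ball (l := fun I : Inst => I.2) (r := fun I N => N.length = I.1 ∧
    ∀ x ∈ N, x < I.2.length) (by fun_prop) (PP.and (PP.eq (by fun_prop) (by fun_prop)) ?_)
  exact PP.ball (l := fun x : Inst × List ℕ => x.2) (r := fun x a => a < x.1.2.length)
    (by fun_prop) (PP.lt (by fun_prop) (by fun_prop))

theorem pp_ver : PP (fun x : Inst × (List (List ℕ) × List (ℕ × ℕ)) => Ver x.1 x.2) := by
  unfold Ver BijL nxc
  refine PP.or (PP.not (pp_isOutRegular.comp (by fun_prop))) (PP.and ?_ (PP.and
    (PP.ne (by fun_prop) (by fun_prop)) ?_))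
  · refine pp_alllt (n := fun x : Inst × (List (List ℕ) × List (ℕ × ℕ)) => x.1.2.length)
      (r := fun x v => (x.2.1.getD v []).length = x.1.1 ∧ (x.2.1.getD v []).Nodup ∧
        ∀ y ∈ x.2.1.getD v [], y < x.1.1) (UPoly.length (by fun_prop)) ?_
    refine PP.and (PP.eq (by fun_prop) (by fun_prop)) (PP.and
      (Pool.Agent.Y592.OP.pp_nodup (by fun_prop)) ?_)
    exact PP.ball (l := fun x : (Inst × (List (List ℕ) × List (ℕ × ℕ))) × ℕ => x.1.2.1.getD x.2 [])
      (r := fun x y => y < x.1.1.1) (by fun_prop) (PP.lt (by fun_prop) (by fun_prop))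
  · refine PP.ball (l := fun x : Inst × (List (List ℕ) × List (ℕ × ℕ)) => x.2.2)
      (r := fun x p => p.1 ≠ p.2 ∧ p.1 < x.1.2.length ∧ p.2 < x.1.2.length ∧
        ∀ a < (x.2.1.getD p.1 []).length,
          ((x.1.2.getD p.1 []).getD ((x.2.1.getD p.1 []).getD a 0) 0,
            (x.1.2.getD p.2 []).getD ((x.2.1.getD p.2 []).getD a 0) 0) ∈ x.2.2)
      (by fun_prop) (PP.and (PP.ne (by fun_prop) (by fun_prop)) (PP.and
        (PP.lt (by fun_prop) (by fun_prop)) (PP.and (PP.lt (by fun_prop) (by fun_prop)) ?_)))
    refine pp_alllt (n := fun x : (Inst × (List (List ℕ) × List (ℕ × ℕ))) × (ℕ × ℕ) =>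
      (x.1.2.1.getD x.2.1 []).length) (r := fun x a =>
        ((x.1.1.2.getD x.2.1 []).getD ((x.1.2.1.getD x.2.1 []).getD a 0) 0,
          (x.1.1.2.getD x.2.2 []).getD ((x.1.2.1.getD x.2.2 []).getD a 0) 0) ∈ x.1.2.2)
      (UPoly.length (by fun_prop)) (PP.mem (by fun_prop) (by fun_prop))

theorem step_lt_length {I : Inst} (hI : IsOutRegular I) (c : Coloring I) {v : ℕ}
    (hv : v < I.2.length) (a : Fin I.1) : step I c v a < I.2.length := by
  obtain ⟨-, -, h3⟩ := hI
  have h4 := h3 _ (List.getElem_mem hv)
  unfold step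
  rw [List.getD_eq_getElem _ _ hv, List.getD_eq_getElem _ _ (by rw [h4.1]; exact (c v a).2)]
  exact h4.2 _ (List.getElem_mem _)

theorem run_lt_length {I : Inst} (hI : IsOutRegular I) (c : Coloring I) (w : List (Fin I.1)) :
    ∀ v < I.2.length, run I c v w < I.2.length := by
  induction w with
  | nil => exact fun v hv => hv
  | cons a w ih => exact fun v hv => ih _ (step_lt_length hI c hv a)

theorem exists_perm_of_list {I : Inst} {l : List ℕ} (h : BijL I l) :
    ∃ p : Equiv.Perm (Fin I.1), ∀ a : Fin I.1, ((p a : Fin I.1) : ℕ) = l.getD a 0 := by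
  obtain ⟨h1, h2, h3⟩ := h
  have hlt : ∀ a : Fin I.1, l.getD a 0 < I.1 := by
    intro a
    rw [List.getD_eq_getElem _ _ (by rw [h1]; exact a.2)]
    exact h3 _ (List.getElem_mem _)
  have hinj : Function.Injective (fun a : Fin I.1 => (⟨l.getD a 0, hlt a⟩ : Fin I.1)) := by
    intro a b hab
    have hab' : l.getD a 0 = l.getD b 0 := congrArg (fun x : Fin I.1 => (x : ℕ)) hab
    rw [List.getD_eq_getElem _ _ (by rw [h1]; exact a.2),
      List.getD_eq_getElem _ _ (by rw [h1]; exact b.2)] at hab'
    exact Fin.ext ((List.Nodup.getElem_inj_iff h2).1 hab')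
  exact ⟨Equiv.ofBijective _ (Finite.injective_iff_bijective.1 hinj), fun a => rfl⟩

theorem of_ver {I : Inst} {w : List (List ℕ) × List (ℕ × ℕ)} (h : Ver I w) : ¬ TotSync I := by
  rintro ⟨hI, hT⟩
  rcases h with h | ⟨h1, h2, h3⟩
  · exact h hI
  · have hex : ∀ v, ∃ p : Equiv.Perm (Fin I.1), v < I.2.length →
        ∀ a : Fin I.1, ((p a : Fin I.1) : ℕ) = (w.1.getD v []).getD a 0 := by
      intro v
      by_cases hv : v < I.2.length
      · obtain ⟨p, hp⟩ := exists_perm_of_list (h1 v hv)
        exact ⟨p, fun _ => hp⟩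
      · exact ⟨Equiv.refl _, fun h => absurd h hv⟩
    choose c hc using hex
    have hstep : ∀ v < I.2.length, ∀ a : Fin I.1, step I c v a = nxc I w.1 v a := by
      intro v hv a
      unfold step nxc
      rw [hc v hv]
    have hrun : ∀ (l : List (Fin I.1)) (p : ℕ × ℕ), p ∈ w.2 → (run I c p.1 l, run I c p.2 l) ∈ w.2 := by
      intro l
      induction l with
      | nil => exact fun p hp => hp
      | cons a l ih =>
        intro p hp
        obtain ⟨-, h5, h6, h7⟩ := h3 p hp
        have h8 := h7 a (by rw [(h1 _ h5).1]; exact a.2)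
        rw [← hstep _ h5, ← hstep _ h6] at h8
        exact ih _ h8
    obtain ⟨l, t, hl⟩ := hT c
    obtain ⟨p, hp⟩ := List.exists_mem_of_ne_nil _ h2
    obtain ⟨-, h5, h6, -⟩ := h3 p hp
    have h7 := hrun l p hp
    rw [hl _ h5, hl _ h6] at h7
    exact (h3 _ h7).1 rfl

/-- If all pairs of states can be merged, then the automaton is synchronizing. -/
theorem sync_of_pairs {I : Inst} (hI : IsOutRegular I) (c : Coloring I)
    (h : ∀ x < I.2.length, ∀ y < I.2.length, ∃ l : List (Fin I.1), run I c x l = run I c y l) :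
    Synchronizing I c := by
  have h0 : 0 < I.2.length := List.length_pos_of_ne_nil hI.2.1
  have key : ∀ j ≤ I.2.length, ∃ l : List (Fin I.1), ∀ v < j, run I c v l = run I c 0 l := by
    intro j
    induction j with
    | zero => exact fun _ => ⟨[], fun v hv => absurd hv (Nat.not_lt_zero v)⟩
    | succ j ih =>
      intro hj
      obtain ⟨l, hl⟩ := ih (by omega)
      obtain ⟨l', hl'⟩ := h _ (run_lt_length hI c l j (by omega)) _ (run_lt_length hI c l 0 h0)
      refine ⟨l ++ l', fun v hv => ?_⟩
      have happ : ∀ v, run I c v (l ++ l') = run I c (run I c v l) l' := by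
        intro v
        unfold run
        rw [List.foldl_append]
      rw [happ, happ]
      rcases Nat.lt_succ_iff_lt_or_eq.1 hv with h1 | rfl
      · rw [hl v h1]
      · exact hl'
  obtain ⟨l, hl⟩ := key _ le_rfl
  exact ⟨l, _, hl⟩

theorem sz_nat_lin (n : ℕ) : sz n ≤ 4 * n + 1 := by
  have h1 := sz_nat_le n
  have h2 : n.size ≤ n := Nat.size_le.2 Nat.lt_two_pow_self
  omega

theorem ver_of {I : Inst} (h : ¬ TotSync I) : ∃ w : List (List ℕ) × List (ℕ × ℕ),
    sz w ≤ (Polynomial.X * (Polynomial.X * (4 * Polynomial.X + 2) + 2) + 1 +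
      (Polynomial.X * Polynomial.X * (8 * Polynomial.X + 4) + 1) + 1 :
      Polynomial ℕ).eval (sz I) ∧ Ver I w := by
  classical
  by_cases hI : IsOutRegular I
  · have h1 : ∃ c : Coloring I, ¬ Synchronizing I c := by
      by_contra hcon
      push Not at hcon
      exact h ⟨hI, hcon⟩
    obtain ⟨c, hc⟩ := h1
    have h0 : 0 < I.2.length := List.length_pos_of_ne_nil hI.2.1
    have hgetD : ∀ v < I.2.length, ((List.range I.2.length).map
        (fun v => List.ofFn (fun a => ((c v a : Fin I.1) : ℕ)))).getD v [] =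
        List.ofFn (fun a => ((c v a : Fin I.1) : ℕ)) := by
      intro v hv
      rw [List.getD_eq_getElem _ _ (by simpa using hv)]
      simp
    refine ⟨((List.range I.2.length).map (fun v => List.ofFn (fun a => ((c v a : Fin I.1) : ℕ))),
      ((List.range I.2.length) ×ˢ (List.range I.2.length)).filter
        (fun p => decide (∀ l : List (Fin I.1), run I c p.1 l ≠ run I c p.2 l))), ?_, Or.inr
      ⟨?_, ?_, ?_⟩⟩
    · -- sizes
      have hszI : sz I = sz I.1 + sz I.2 + 1 := sz_pair I.1 I.2
      have hn : I.2.length ≤ sz I := by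
        have := length_lt_sz I.2
        omega
      have hk : I.1 ≤ sz I := by
        obtain ⟨N, hN⟩ := List.exists_mem_of_ne_nil _ hI.2.1
        have h2 := (hI.2.2 N hN).1
        have h3 := length_lt_sz N
        have h4 := sz_le_of_mem hN
        omega
      generalize sz I = s at *
      have hA : ∀ v, sz (List.ofFn (fun a => ((c v a : Fin I.1) : ℕ))) ≤ s * (4 * s + 2) + 1 := by
        intro v
        have h5 := sz_le_length_mul (List.ofFn (fun a => ((c v a : Fin I.1) : ℕ))) (4 * s + 1)
          (fun x hx => by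
            rw [List.mem_ofFn] at hx
            obtain ⟨a, rfl⟩ := hx
            have := sz_nat_lin ((c v a : Fin I.1) : ℕ)
            have h6 := (c v a).2
            omega)
        rw [List.length_ofFn] at h5
        exact h5.trans (Nat.add_le_add_right (Nat.mul_le_mul_right _ hk) 1)
      have hB := sz_le_length_mul ((List.range I.2.length).map
        (fun v => List.ofFn (fun a => ((c v a : Fin I.1) : ℕ)))) (s * (4 * s + 2) + 1)
        (fun x hx => by
          rw [List.mem_map] at hx
          obtain ⟨v, -, rfl⟩ := hx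
          exact hA v)
      rw [List.length_map, List.length_range] at hB
      have hC := sz_le_length_mul (((List.range I.2.length) ×ˢ (List.range I.2.length)).filter
        (fun p => decide (∀ l : List (Fin I.1), run I c p.1 l ≠ run I c p.2 l))) (8 * s + 3)
        (fun x hx => by
          obtain ⟨y, z⟩ := x
          simp only [List.mem_filter, List.mem_product, List.mem_range] at hx
          have h7 := sz_nat_lin y
          have h8 := sz_nat_lin z
          have h9 : sz (y, z) = sz y + sz z + 1 := sz_pair y z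
          omega)
      have hD := List.length_filter_le
        (fun p => decide (∀ l : List (Fin I.1), run I c p.1 l ≠ run I c p.2 l))
        ((List.range I.2.length) ×ˢ (List.range I.2.length))
      rw [List.length_product, List.length_range] at hD
      rw [sz_pair]
      simp only [Polynomial.eval_add, Polynomial.eval_mul, Polynomial.eval_X,
        Polynomial.eval_one, Polynomial.eval_ofNat]
      have hE : I.2.length * (s * (4 * s + 2) + 1 + 1) ≤ s * (s * (4 * s + 2) + 2) :=
        Nat.mul_le_mul hn le_rfl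
      have hF : (((List.range I.2.length) ×ˢ (List.range I.2.length)).filter
        (fun p => decide (∀ l : List (Fin I.1), run I c p.1 l ≠ run I c p.2 l))).length *
          (8 * s + 3 + 1) ≤ s * s * (8 * s + 4) :=
        Nat.mul_le_mul (hD.trans (Nat.mul_le_mul hn hn)) le_rfl
      omega
    · intro v hv
      rw [hgetD v hv]
      refine ⟨List.length_ofFn, ?_, ?_⟩
      · rw [List.nodup_ofFn]
        exact fun a b hab => (c v).injective (Fin.ext hab)
      · intro x hx
        rw [List.mem_ofFn] at hx
        obtain ⟨a, rfl⟩ := hx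
        exact (c v a).2
    · intro hnil
      refine hc (sync_of_pairs hI c fun x hx y hy => ?_)
      by_contra hcon
      push Not at hcon
      have : (x, y) ∈ ((List.range I.2.length) ×ˢ (List.range I.2.length)).filter
          (fun p => decide (∀ l : List (Fin I.1), run I c p.1 l ≠ run I c p.2 l)) := by
        simp only [List.mem_filter, List.mem_product, List.mem_range, decide_eq_true_eq]
        exact ⟨⟨hx, hy⟩, hcon⟩
      dsimp only at hnil
      rw [hnil] at this
      simp at this
    · rintro ⟨x, y⟩ hp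
      simp only [List.mem_filter, List.mem_product, List.mem_range, decide_eq_true_eq] at hp
      obtain ⟨⟨hx, hy⟩, hxy⟩ := hp
      refine ⟨hxy [], hx, hy, ?_⟩
      intro a ha
      simp only at ha
      rw [hgetD x hx, List.length_ofFn] at ha
      have hnx : ∀ v < I.2.length, nxc I ((List.range I.2.length).map
          (fun v => List.ofFn (fun a => ((c v a : Fin I.1) : ℕ)))) v a = step I c v ⟨a, ha⟩ := by
        intro v hv
        unfold nxc step
        rw [hgetD v hv]
        congr 1
        rw [List.getD_eq_getElem _ _ (by rw [List.length_ofFn]; exact ha), List.getElem_ofFn]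
      simp only [List.mem_filter, List.mem_product, List.mem_range, decide_eq_true_eq]
      rw [hnx x hx, hnx y hy]
      exact ⟨⟨step_lt_length hI c hx _, step_lt_length hI c hy _⟩, fun l => hxy (⟨a, ha⟩ :: l)⟩
  · refine ⟨([], []), ?_, Or.inl hI⟩
    have := sz_pos I
    simp only [sz_pair, sz_list_nil, Polynomial.eval_add, Polynomial.eval_mul, Polynomial.eval_X,
      Polynomial.eval_one, Polynomial.eval_ofNat]
    omega

theorem inCoNPP : InCoNPP TotSync :=
  EN.inCoNPP_of_pp pp_ver _ (fun _ h => ver_of h) fun _ _ h => of_ver h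

end Pool.Agent.R544.TS
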