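import Mathlib

/-!
# Blocks of equal weight in automata which are not synchronizing

A theorem of Friedman: let `w` be positive weights of the states of a strongly connected automaton
which are stationary; then the fibres of the words of least rank all have the same weight.
-/

set_option autoImplicit false
set_option linter.unusedSectionVars false

namespace Pool.Agent.R544.TS

open Finset

variable {V S : Type*} [Fintype V] [Fintype S] [DecidableEq V] (δ : V → S → V) (w : V → ℕ)

/-- The rank of a word. -/
def rk (l : List S) : ℕ := (univ.image (fun v => l.foldl δ v)).card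

/-- The weight of a fibre. -/
def fw (l : List S) (x : V) : ℕ := ∑ v, if l.foldl δ v = x then w v else 0

variable {δ w}

theorem rk_append_le_right (l l' : List S) : rk δ (l ++ l') ≤ rk δ l' := by
  unfold rk
  refine card_le_card fun y hy => ?_
  simp only [mem_image, mem_univ, true_and, List.foldl_append] at hy ⊢
  obtain ⟨v, hv⟩ := hy
  exact ⟨_, hv⟩

theorem image_append (l l' : List S) : univ.image (fun v => (l ++ l').foldl δ v) =
      (univ.image (fun v => l.foldl δ v)).image (fun v => l'.foldl δ v) := by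
  rw [image_image]
  refine image_congr fun v _ => ?_
  simp [List.foldl_append]

theorem rk_append_le_left (l l' : List S) : rk δ (l ++ l') ≤ rk δ l := by
  unfold rk
  rw [image_append]
  exact card_image_le

theorem fw_le (l : List S) (x : V) : fw δ w l x ≤ ∑ v, w v := by
  unfold fw
  refine sum_le_sum fun v _ => ?_
  split_ifs
  · exact le_rfl
  · exact Nat.zero_le _

theorem sum_fw (l : List S) : ∑ x ∈ univ.image (fun v => l.foldl δ v), fw δ w l x = ∑ v, w v := by
  unfold fw
  rw [sum_comm]
  refine sum_congr rfl fun v _ => ?_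
  rw [sum_ite_eq, if_pos (mem_image_of_mem _ (mem_univ v))]

theorem fw_cons_eq (a : S) (l : List S) (x : V) : fw δ w (a :: l) x =
    ∑ u, if l.foldl δ u = x then (∑ v, if δ v a = u then w v else 0) else 0 := by
  unfold fw
  have e : ∀ u, (if l.foldl δ u = x then (∑ v, if δ v a = u then w v else 0) else 0) =
      ∑ v, if δ v a = u then (if l.foldl δ u = x then w v else 0) else 0 := by
    intro u
    split_ifs with h
    · rfl
    · simp
  simp only [e]
  rw [sum_comm]
  refine sum_congr rfl fun v _ => ?_
  rw [sum_ite_eq, if_pos (mem_univ _)]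
  rfl

theorem sum_fw_cons (hw : ∀ u, ∑ a, ∑ v, (if δ v a = u then w v else 0) = Fintype.card S * w u)
    (l : List S) (x : V) : ∑ a, fw δ w (a :: l) x = Fintype.card S * fw δ w l x := by
  simp only [fw_cons_eq]
  rw [sum_comm]
  unfold fw
  rw [mul_sum]
  refine sum_congr rfl fun u _ => ?_
  split_ifs
  · exact hw u
  · simp

/-- The weight of a fibre which does not meet the image is zero. -/
theorem fw_pos (hp : ∀ v, 0 < w v) (l : List S) (x : V) :
    0 < fw δ w l x ↔ x ∈ univ.image (fun v => l.foldl δ v) := by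
  unfold fw
  rw [Finset.sum_pos_iff]
  simp only [mem_univ, true_and, mem_image]
  refine exists_congr fun v => ?_
  split_ifs with h
  · simp [h, hp v]
  · simp [h]

/-- If `l'` does not merge two elements of the image of `l`, then the fibres of `l` are the fibres
of `l ++ l'`. -/
theorem fw_append (l l' : List S) (h : rk δ (l ++ l') = rk δ l)
    (x : V) (hx : x ∈ univ.image (fun v => l.foldl δ v)) :
    fw δ w (l ++ l') (l'.foldl δ x) = fw δ w l x := by
  unfold rk at h
  rw [image_append] at h
  have inj := card_image_iff.mp h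
  unfold fw
  refine sum_congr rfl fun v _ => ?_
  rw [List.foldl_append]
  congr 1
  refine propext ⟨fun e => ?_, fun e => by rw [e]⟩
  exact inj (mem_coe.mpr (mem_image_of_mem _ (mem_univ v))) (mem_coe.mpr hx) e

theorem exists_half [Nonempty V]
    (hw : ∀ u, ∑ a, ∑ v, (if δ v a = u then w v else 0) = Fintype.card S * w u)
    (hp : ∀ v, 0 < w v) (hc : ∀ x y, ∃ l : List S, l.foldl δ x = y)
    (hn : ∀ l : List S, ∃ x y, l.foldl δ x ≠ l.foldl δ y)
    (z : V) (hz : ∑ v, w v < 3 * w z) :
    ∃ f : V → Bool, 2 * (∑ v, if f v = true then w v else 0) = ∑ v, w v := by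
  classical
  -- the least rank
  obtain ⟨r, ⟨l₀, hl₀⟩, hr⟩ : ∃ r, (∃ l : List S, rk δ l = r) ∧ ∀ l : List S, r ≤ rk δ l := by
    have hex : ∃ r, ∃ l : List S, rk δ l = r := ⟨_, [], rfl⟩
    exact ⟨Nat.find hex, Nat.find_spec hex, fun l => Nat.find_min' hex ⟨l, rfl⟩⟩
  have happ : ∀ l l' : List S, rk δ l = r → rk δ (l ++ l') = r := fun l l' h =>
    le_antisymm ((rk_append_le_left l l').trans h.le) (hr _)
  have happ' : ∀ l l' : List S, rk δ l' = r → rk δ (l ++ l') = r := fun l l' h =>
    le_antisymm ((rk_append_le_right l l').trans h.le) (hr _)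
  have hr2 : 2 ≤ r := by
    obtain ⟨x, y, hxy⟩ := hn l₀
    rw [← hl₀]
    refine one_lt_card.mpr ⟨_, mem_image_of_mem _ (mem_univ x), _, mem_image_of_mem _ (mem_univ y), hxy⟩
  -- the largest weight of a fibre
  obtain ⟨m, ⟨l₁, x₁, hl₁, hm₁⟩, hm⟩ : ∃ m, (∃ (l : List S) (x : V), rk δ l = r ∧ fw δ w l x = m) ∧
      ∀ (l : List S) (x : V), rk δ l = r → fw δ w l x ≤ m := by
    have hbd : ∃ b : ℕ, ∀ (l : List S) (x : V), rk δ l = r → fw δ w l x ≤ b :=
      ⟨_, fun l x _ => fw_le l x⟩
    let m := Nat.find hbd
    have hm := Nat.find_spec hbd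
    refine ⟨m, ?_, hm⟩
    by_contra hcon
    push Not at hcon
    have h1 : ∀ (l : List S) (x : V), rk δ l = r → fw δ w l x < m := fun l x h =>
      lt_of_le_of_ne (hm l x h) (hcon l x h)
    have h0 : 0 < m := lt_of_le_of_lt (Nat.zero_le _) (h1 l₀ (Classical.arbitrary V) hl₀)
    have := Nat.find_min' hbd (m := m - 1) (fun l x h => by have := h1 l x h; omega)
    change m ≤ m - 1 at this
    omega
  -- prepending letters
  have hpre : ∀ (u : List S), fw δ w (u ++ l₁) x₁ = m := by
    intro u
    induction u with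
    | nil => simpa using hm₁
    | cons a u ih =>
      have h1 := sum_fw_cons hw (u ++ l₁) x₁
      rw [ih] at h1
      have h2 : ∀ b ∈ (univ : Finset S), fw δ w (b :: (u ++ l₁)) x₁ ≤ m := fun b _ =>
        hm _ _ (by
          have := happ' (b :: u) l₁ hl₁
          simpa using this)
      have h3 : ∑ b : S, fw δ w (b :: (u ++ l₁)) x₁ = ∑ b : S, m := by
        rw [h1, sum_const, smul_eq_mul]
        rfl
      have h4 := (sum_eq_sum_iff_of_le h2).mp h3 a (mem_univ a)
      simpa using h4
  -- all fibres have the weight `m`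
  have hall : ∀ (l : List S) (x : V), rk δ l = r → x ∈ univ.image (fun v => l.foldl δ v) →
      fw δ w l x = m := by
    intro l x hl hx
    -- a state whose image under `l₁` is `x₁`
    have hmpos : 0 < m := by
      have h1 : fw δ w l₀ (l₀.foldl δ (Classical.arbitrary V)) ≤ m := hm _ _ hl₀
      have h2 := (fw_pos (δ := δ) (w := w) hp l₀ (l₀.foldl δ (Classical.arbitrary V))).mpr
        (mem_image_of_mem (fun v => l₀.foldl δ v) (mem_univ (Classical.arbitrary V)))
      exact lt_of_lt_of_le h2 h1
    have h1 : x₁ ∈ univ.image (fun v => l₁.foldl δ v) := (fw_pos (w := w) hp l₁ x₁).mp (by omega)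
    obtain ⟨v, -, hv⟩ := mem_image.mp h1
    obtain ⟨u, hu⟩ := hc x v
    have h2 := hpre (l ++ u)
    have h3 := fw_append (w := w) l (u ++ l₁) (by rw [happ l _ hl, hl]) x hx
    rw [List.foldl_append, hu, hv, ← List.append_assoc, h2] at h3
    exact h3.symm
  -- the total weight
  have hW : ∑ v, w v = r * m := by
    rw [← sum_fw l₁, sum_congr rfl (fun x hx => hall l₁ x hl₁ hx), sum_const, smul_eq_mul]
    congr 1
  have hz' : w z ≤ m := by
    have h1 := hall l₁ (l₁.foldl δ z) hl₁ (mem_image_of_mem (fun v => l₁.foldl δ v) (mem_univ z))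
    rw [← h1]
    unfold fw
    refine le_trans ?_ (single_le_sum (f := fun v => if l₁.foldl δ v = l₁.foldl δ z then w v else 0)
      (fun _ _ => Nat.zero_le _) (mem_univ z))
    simp
  have hr' : r = 2 := by
    have : r * m < 3 * m := by
      rw [← hW]
      omega
    have := Nat.lt_of_mul_lt_mul_right this
    omega
  refine ⟨fun v => decide (l₁.foldl δ v = x₁), ?_⟩
  simp only [decide_eq_true_eq]
  change 2 * fw δ w l₁ x₁ = _
  rw [hm₁, hW, hr']

end Pool.Agent.R544.TS
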