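import Pool.Agent.R544.TS.Defs
import Pool.Agent.R544.TS.Fried

/-!
# The digraph of a system of balance conditions
-/

set_option autoImplicit false

namespace Pool.Agent.R544.TS

open Finset

/-- A system of `L` lists of items `< n`. -/
structure Dat where
  n : ℕ
  L : ℕ
  M : ℕ → List ℕ

/-- The lists have six elements and cover all items. -/
structure Good (D : Dat) : Prop where
  len : ∀ l < D.L, (D.M l).length = 6
  lt : ∀ l < D.L, ∀ i ∈ D.M l, i < D.n
  ex : ∀ i < D.n, ∃ l < D.L, i ∈ D.M l

/-- There are signs of the items such that all lists are balanced. -/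
def Bal (D : Dat) : Prop :=
  ∃ s : ℕ → ℤ, (∀ i, s i = 1 ∨ s i = -1) ∧ ∀ l < D.L, ((D.M l).map s).sum = 0

/-- The number of vertices. -/
def nV (D : Dat) : ℕ := 2 * (D.L + 1) + D.n

/-- A constant list. -/
def rep (k x : ℕ) : List ℕ := (List.range k).map (fun _ => x)

/-- The heads of the edges leaving the vertex `v`. -/
def nb (D : Dat) (v : ℕ) : List ℕ :=
  if v < 2 * D.L then rep 4 (2 * (v / 2) + 2) ++ rep 4 (2 * (v / 2) + 3) ++
    (D.M (v / 2)).map (fun i => 2 * (D.L + 1) + i) ++ rep 57 0 ++ rep 57 1
  else rep 64 0 ++ rep 64 1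

/-- The instance. -/
def inst (D : Dat) : Inst := (128, (List.range (nV D)).map (nb D))

/-- The weights. -/
def wt (D : Dat) (v : ℕ) : ℕ :=
  if v < 2 * (D.L + 1) then 64 * 16 ^ (D.L - v / 2)
  else ∑ l ∈ range D.L, (D.M l).count (v - 2 * (D.L + 1)) * 16 ^ (D.L - l)

theorem mem_rep {k x y : ℕ} : y ∈ rep k x ↔ k ≠ 0 ∧ y = x := by
  unfold rep
  simp only [List.mem_map, List.mem_range]
  constructor
  · rintro ⟨i, hi, rfl⟩
    exact ⟨by omega, rfl⟩
  · rintro ⟨h, rfl⟩
    exact ⟨0, by omega, rfl⟩

theorem length_rep (k x : ℕ) : (rep k x).length = k := by simp [rep]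

theorem sum_rep (k x : ℕ) (f : ℕ → ℤ) : ((rep k x).map f).sum = k * f x := by
  unfold rep
  simp

theorem count_rep (k x u : ℕ) : (rep k x).count u = if u = x then k else 0 := by
  unfold rep
  rw [List.map_const', List.count_replicate, List.length_range]
  by_cases h : u = x
  · simp [h]
  · rw [if_neg (by simpa using fun h' => h h'.symm), if_neg h]

theorem nb_length {D : Dat} (hD : Good D) (v : ℕ) : (nb D v).length = 128 := by
  unfold nb
  split_ifs with h
  · simp only [List.length_append, length_rep, List.length_map, hD.len (v / 2) (by omega)]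
  · simp only [List.length_append, length_rep]

theorem nb_lt {D : Dat} (hD : Good D) {v x : ℕ} (h : x ∈ nb D v) : x < nV D := by
  unfold nb at h
  unfold nV
  split_ifs at h with hv
  · simp only [List.mem_append, mem_rep, List.mem_map] at h
    rcases h with (((h | h) | ⟨i, hi, rfl⟩) | h) | h
    · omega
    · omega
    · have := hD.lt _ (by omega) i hi
      omega
    · omega
    · omega
  · simp only [List.mem_append, mem_rep] at h
    omega

theorem inst_getD {D : Dat} {v : ℕ} (hv : v < nV D) : (inst D).2.getD v [] = nb D v := by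
  unfold inst
  simp only
  rw [List.getD_eq_getElem _ _ (by simpa using hv)]
  simp

theorem inst_length (D : Dat) : (inst D).2.length = nV D := by simp [inst]

theorem isOutRegular_inst {D : Dat} (hD : Good D) : IsOutRegular (inst D) := by
  refine ⟨by change 1 ≤ 128; omega, ?_, ?_⟩
  · intro h
    have := congrArg List.length h
    rw [inst_length] at this
    unfold nV at this
    simp at this
  · intro N hN
    rw [inst_length]
    unfold inst at hN
    simp only [List.mem_map, List.mem_range] at hN
    obtain ⟨v, hv, rfl⟩ := hN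
    exact ⟨nb_length hD v, fun x hx => nb_lt hD hx⟩

/-! ### Sums -/

/-- The Horner scheme of the signed sum of the weights. -/
def Q (D : Dat) (s : ℕ → ℤ) : ℕ → ℤ
  | 0 => 4 * (s 0 + s 1)
  | l + 1 => 16 * Q D s l + 4 * (s (2 * l + 2) + s (2 * l + 3)) +
      ((D.M l).map (fun i => s (2 * (D.L + 1) + i))).sum

theorem sum_pairs (g : ℕ → ℤ) (k : ℕ) :
    ∑ v ∈ range (2 * k), g v = ∑ l ∈ range k, (g (2 * l) + g (2 * l + 1)) := by
  induction k with
  | zero => rfl
  | succ k ih =>
    rw [show 2 * (k + 1) = 2 * k + 1 + 1 from by ring, sum_range_succ, sum_range_succ, ih,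
      sum_range_succ]
    ring

theorem sum_count {n : ℕ} (f : ℕ → ℤ) (l : List ℕ) (h : ∀ i ∈ l, i < n) :
    ∑ i ∈ range n, f i * (l.count i : ℤ) = (l.map f).sum := by
  induction l with
  | nil => simp
  | cons a l ih =>
    simp only [List.count_cons, List.map_cons, List.sum_cons]
    rw [← ih fun i hi => h i (List.mem_cons_of_mem _ hi)]
    have h1 : ∀ i, f i * ((l.count i + (if (a == i) = true then 1 else 0) : ℕ) : ℤ) =
        f i * (l.count i : ℤ) + if a = i then f i else 0 := by
      intro i
      by_cases hi : a = i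
      · subst hi
        simp
        ring
      · simp [hi]
    simp only [h1]
    rw [sum_add_distrib, sum_ite_eq, if_pos (mem_range.2 (h a (List.mem_cons_self)))]
    ring

theorem horner (D : Dat) (s : ℕ → ℤ) {j : ℕ} (hj : j ≤ D.L) :
    ∑ l ∈ range (j + 1), 64 * 16 ^ (D.L - l) * (s (2 * l) + s (2 * l + 1)) +
      ∑ l ∈ range j, 16 ^ (D.L - l) * ((D.M l).map (fun i => s (2 * (D.L + 1) + i))).sum =
    16 ^ (D.L - j) * 16 * Q D s j := by
  induction j with
  | zero => simp [Q]; ring
  | succ j ih =>
    have e : D.L - j = (D.L - (j + 1)) + 1 := by omega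
    rw [sum_range_succ (fun l => 64 * 16 ^ (D.L - l) * (s (2 * l) + s (2 * l + 1))) (j + 1),
      sum_range_succ (fun l => 16 ^ (D.L - l) *
        ((D.M l).map (fun i => s (2 * (D.L + 1) + i))).sum) j]
    have := ih (by omega)
    rw [Q]
    have h3 : 2 * (j + 1) = 2 * j + 2 := by ring
    have h4 : 2 * (j + 1) + 1 = 2 * j + 3 := by ring
    rw [h4, h3]
    rw [e, pow_succ] at this ⊢
    linear_combination this

theorem signed_sum {D : Dat} (hD : Good D) (s : ℕ → ℤ) :
    ∑ v ∈ range (nV D), s v * (wt D v : ℤ) = 16 * Q D s D.L := by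
  have h := horner D s (le_refl D.L)
  rw [Nat.sub_self, pow_zero, one_mul] at h
  rw [← h]
  unfold nV
  rw [sum_range_add]
  congr 1
  · rw [sum_pairs]
    refine sum_congr rfl fun l hl => ?_
    rw [mem_range] at hl
    unfold wt
    rw [if_pos (by omega), if_pos (by omega), show 2 * l / 2 = l by omega,
      show (2 * l + 1) / 2 = l by omega]
    push_cast
    ring
  · have e : ∀ i, (wt D (2 * (D.L + 1) + i) : ℤ) =
        ∑ l ∈ range D.L, ((D.M l).count i : ℤ) * 16 ^ (D.L - l) := by
      intro i
      unfold wt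
      rw [if_neg (by omega), Nat.add_sub_cancel_left]
      push_cast
      rfl
    simp only [e, mul_sum]
    rw [sum_comm]
    refine sum_congr rfl fun l hl => ?_
    rw [← sum_count _ _ (hD.lt l (mem_range.1 hl)), mul_sum]
    refine sum_congr rfl fun i _ => ?_
    ring

theorem sum_le_of {s : ℕ → ℤ} (hs : ∀ i, s i = 1 ∨ s i = -1) (l : List ℕ) :
    (l.map s).sum ≤ l.length ∧ -(l.length : ℤ) ≤ (l.map s).sum := by
  induction l with
  | nil => simp
  | cons a l ih =>
    simp only [List.map_cons, List.sum_cons, List.length_cons]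
    push_cast
    rcases hs a with h | h <;> rw [h] <;> constructor <;> linarith [ih.1, ih.2]

theorem Q_zero {D : Dat} (hD : Good D) {s : ℕ → ℤ} (hs : ∀ i, s i = 1 ∨ s i = -1)
    (h : Q D s D.L = 0) : ∀ d ≤ D.L, Q D s (D.L - d) = 0 := by
  intro d
  induction d with
  | zero => intro _; exact h
  | succ d ih =>
    intro hd
    have h1 := ih (by omega)
    have e : D.L - d = (D.L - (d + 1)) + 1 := by omega
    rw [e, Q] at h1
    have h2 := sum_le_of (s := fun i => s (2 * (D.L + 1) + i)) (fun i => hs _)
      (D.M (D.L - (d + 1)))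
    rw [hD.len _ (by omega)] at h2
    have h3 := hs (2 * (D.L - (d + 1)) + 2)
    have h4 := hs (2 * (D.L - (d + 1)) + 3)
    push_cast at h2
    generalize s (2 * (D.L - (d + 1)) + 2) = a at *
    generalize s (2 * (D.L - (d + 1)) + 3) = b at *
    generalize (List.map (fun i => s (2 * (D.L + 1) + i)) (D.M (D.L - (d + 1)))).sum = c at *
    omega

/-- A balanced signing of the vertices gives a balanced signing of the items. -/
theorem bal_of_sum {D : Dat} (hD : Good D) {s : ℕ → ℤ} (hs : ∀ i, s i = 1 ∨ s i = -1)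
    (h : ∑ v ∈ range (nV D), s v * (wt D v : ℤ) = 0) : Bal D := by
  rw [signed_sum hD] at h
  have h0 := Q_zero hD hs (by omega)
  refine ⟨fun i => s (2 * (D.L + 1) + i), fun i => hs _, fun l hl => ?_⟩
  have h1 := h0 (D.L - l) (by omega)
  have h2 := h0 (D.L - (l + 1)) (by omega)
  rw [show D.L - (D.L - l) = l by omega] at h1
  rw [show D.L - (D.L - (l + 1)) = l + 1 by omega, Q, h1] at h2
  have h3 := hs (2 * l + 2)
  have h4 := hs (2 * l + 3)
  have h5 := sum_le_of (s := fun i => s (2 * (D.L + 1) + i)) (fun i => hs _) (D.M l)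
  rw [hD.len _ hl] at h5
  push_cast at h5
  generalize s (2 * l + 2) = a at *
  generalize s (2 * l + 3) = b at *
  generalize (List.map (fun i => s (2 * (D.L + 1) + i)) (D.M l)).sum = c at *
  omega

theorem Q_one_le {D : Dat} (hD : Good D) {j : ℕ} (hj : j ≤ D.L) :
    Q D (fun _ => 1) j + 1 ≤ 9 * 16 ^ j := by
  induction j with
  | zero => simp [Q]
  | succ j ih =>
    have h1 := ih (by omega)
    rw [Q, pow_succ]
    have h2 : ((D.M j).map (fun _ => (1 : ℤ))).sum = 6 := by
      simp [hD.len j (by omega)]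
    rw [h2]
    linarith

theorem sum_wt_lt {D : Dat} (hD : Good D) :
    ∑ v ∈ range (nV D), wt D v < 3 * wt D 0 := by
  have h1 := signed_sum hD (fun _ => 1)
  have h2 := Q_one_le hD (le_refl D.L)
  have h3 : (∑ v ∈ range (nV D), (wt D v : ℤ)) < 3 * (wt D 0 : ℤ) := by
    simp only [one_mul] at h1
    rw [h1]
    have h4 : (wt D 0 : ℤ) = 64 * 16 ^ D.L := by
      unfold wt
      rw [if_pos (by omega)]
      simp
    rw [h4]
    have h5 : (0 : ℤ) < 16 ^ D.L := by positivity
    linarith
  exact_mod_cast h3

theorem wt_pos {D : Dat} (hD : Good D) {v : ℕ} (hv : v < nV D) : 0 < wt D v := by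
  unfold wt
  split_ifs with h
  · positivity
  · unfold nV at hv
    obtain ⟨l, hl, hm⟩ := hD.ex (v - 2 * (D.L + 1)) (by omega)
    refine sum_pos' (fun _ _ => Nat.zero_le _) ⟨l, mem_range.2 hl, ?_⟩
    exact Nat.mul_pos (List.count_pos_iff.2 hm) (by positivity)

/-! ### Stationarity -/

/-- The inflow of a vertex. -/
def infl (D : Dat) (u : ℕ) : ℕ := ∑ v ∈ range (nV D), wt D v * (nb D v).count u

theorem sum_pairs' (g : ℕ → ℕ) (k : ℕ) :
    ∑ v ∈ range (2 * k), g v = ∑ l ∈ range k, (g (2 * l) + g (2 * l + 1)) := by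
  induction k with
  | zero => rfl
  | succ k ih =>
    rw [show 2 * (k + 1) = 2 * k + 1 + 1 from by ring, sum_range_succ, sum_range_succ, ih,
      sum_range_succ]
    ring

theorem count_nb_lt {D : Dat} {v u : ℕ} (hv : v < 2 * D.L) (hu : 2 ≤ u) :
    (nb D v).count u = (if u = 2 * (v / 2) + 2 then 4 else 0) +
      (if u = 2 * (v / 2) + 3 then 4 else 0) +
      ((D.M (v / 2)).map (fun i => 2 * (D.L + 1) + i)).count u := by
  unfold nb
  rw [if_pos hv]
  simp only [List.count_append, count_rep]
  rw [if_neg (by omega : ¬ u = 0), if_neg (by omega : ¬ u = 1)]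
  omega

theorem count_nb_ge {D : Dat} {v u : ℕ} (hv : ¬ v < 2 * D.L) (hu : 2 ≤ u) :
    (nb D v).count u = 0 := by
  unfold nb
  rw [if_neg hv]
  simp only [List.count_append, count_rep]
  rw [if_neg (by omega : ¬ u = 0), if_neg (by omega : ¬ u = 1)]

theorem infl_eq {D : Dat} {u : ℕ} (hu : 2 ≤ u) : infl D u =
    ∑ l ∈ range D.L, 128 * 16 ^ (D.L - l) * ((if u = 2 * l + 2 then 4 else 0) +
      (if u = 2 * l + 3 then 4 else 0) +
      ((D.M l).map (fun i => 2 * (D.L + 1) + i)).count u) := by
  unfold infl
  have e : nV D = 2 * D.L + (2 + D.n) := by unfold nV; omega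
  rw [e, sum_range_add, sum_pairs']
  have h0 : ∑ x ∈ range (2 + D.n), wt D (2 * D.L + x) * (nb D (2 * D.L + x)).count u = 0 := by
    refine sum_eq_zero fun x _ => ?_
    rw [count_nb_ge (by omega) hu, Nat.mul_zero]
  rw [h0, Nat.add_zero]
  refine sum_congr rfl fun l hl => ?_
  rw [mem_range] at hl
  have hw : ∀ v, v / 2 = l → wt D v = 64 * 16 ^ (D.L - l) := by
    intro v hv
    unfold wt
    rw [if_pos (by omega), hv]
  rw [count_nb_lt (by omega) hu, count_nb_lt (by omega) hu, hw (2 * l) (by omega),
    hw (2 * l + 1) (by omega), show 2 * l / 2 = l by omega, show (2 * l + 1) / 2 = l by omega]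
  ring

theorem infl_low {D : Dat} {j u : ℕ} (hj : j < D.L) (hu : u = 2 * j + 2 ∨ u = 2 * j + 3) :
    infl D u = 128 * wt D u := by
  rw [infl_eq (by omega), sum_eq_single j]
  · have h1 : ((D.M j).map (fun i => 2 * (D.L + 1) + i)).count u = 0 := by
      rw [List.count_eq_zero]
      simp only [List.mem_map, not_exists, not_and]
      intro i _ h
      omega
    rw [h1]
    have h2 : (if u = 2 * j + 2 then 4 else 0) + (if u = 2 * j + 3 then 4 else 0) = 4 := by
      rcases hu with h | h <;> simp [h]
    rw [h2]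
    unfold wt
    rw [if_pos (by omega), show u / 2 = j + 1 by omega,
      show D.L - j = (D.L - (j + 1)) + 1 by omega, pow_succ]
    ring
  · intro l hl hlj
    have h1 : ((D.M l).map (fun i => 2 * (D.L + 1) + i)).count u = 0 := by
      rw [List.count_eq_zero]
      simp only [List.mem_map, not_exists, not_and]
      intro i _ h
      omega
    rw [h1, if_neg (by omega), if_neg (by omega)]
    simp
  · intro h
    exact absurd (mem_range.2 hj) h

theorem infl_item {D : Dat} {u : ℕ} (hu : 2 * (D.L + 1) ≤ u) : infl D u = 128 * wt D u := by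
  rw [infl_eq (by omega)]
  unfold wt
  rw [if_neg (by omega), mul_sum]
  refine sum_congr rfl fun l hl => ?_
  rw [mem_range] at hl
  have h1 : ((D.M l).map (fun i => 2 * (D.L + 1) + i)).count u =
      (D.M l).count (u - 2 * (D.L + 1)) := by
    have e : u = (fun i => 2 * (D.L + 1) + i) (u - 2 * (D.L + 1)) := by
      simp only
      omega
    conv_lhs => rw [e]
    exact List.count_map_of_injective _ _ (fun a b h => by simpa using h) _
  rw [h1, if_neg (by omega), if_neg (by omega)]
  ring

theorem infl_zero_one {D : Dat} : infl D 0 = infl D 1 := by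
  unfold infl
  refine sum_congr rfl fun v _ => ?_
  congr 1
  unfold nb
  split_ifs with h
  · simp only [List.count_append, count_rep]
    have h1 : ∀ u < 2, ((D.M (v / 2)).map (fun i => 2 * (D.L + 1) + i)).count u = 0 := by
      intro u hu
      rw [List.count_eq_zero]
      simp only [List.mem_map, not_exists, not_and]
      intro i _ h
      omega
    rw [h1 0 (by omega), h1 1 (by omega)]
    simp
  · simp only [List.count_append, count_rep]
    simp

theorem sum_infl {D : Dat} (hD : Good D) :
    ∑ u ∈ range (nV D), infl D u = 128 * ∑ u ∈ range (nV D), wt D u := by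
  unfold infl
  rw [sum_comm, mul_sum]
  refine sum_congr rfl fun v _ => ?_
  rw [← mul_sum, Nat.mul_comm]
  congr 1
  have h := sum_count (n := nV D) (fun _ => 1) (nb D v) (fun i hi => nb_lt hD hi)
  have h2 : ((nb D v).map (fun _ => (1 : ℤ))).sum = 128 := by simp [nb_length hD v]
  rw [h2] at h
  simp only [one_mul] at h
  exact_mod_cast h

theorem infl_all {D : Dat} (hD : Good D) {u : ℕ} (hu : u < nV D) : infl D u = 128 * wt D u := by
  have hge : ∀ u, 2 ≤ u → infl D u = 128 * wt D u := by
    intro u hu
    by_cases h : u < 2 * (D.L + 1)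
    · exact infl_low (j := u / 2 - 1) (by omega) (by omega)
    · exact infl_item (by omega)
  by_cases h : 2 ≤ u
  · exact hge u h
  · have h1 := sum_infl hD
    have e : nV D = 2 + (nV D - 2) := by unfold nV; omega
    have h2 : wt D 0 = wt D 1 := by
      unfold wt
      rw [if_pos (by omega), if_pos (by omega)]
    have h3 := infl_zero_one (D := D)
    rw [e, sum_range_add, sum_range_add, Nat.mul_add] at h1
    have h4 : ∑ x ∈ range (nV D - 2), infl D (2 + x) = 128 * ∑ x ∈ range (nV D - 2), wt D (2 + x) := by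
      rw [mul_sum]
      exact sum_congr rfl fun x _ => hge _ (by omega)
    rw [h4] at h1
    simp only [sum_range_succ, range_zero, sum_empty, zero_add] at h1
    have : u = 0 ∨ u = 1 := by omega
    rcases this with rfl | rfl <;> omega

end Pool.Agent.R544.TS
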