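import Pool.Agent.R544.TS.Core

/-!
# The digraph is totally synchronizing iff the system cannot be balanced
-/

set_option autoImplicit false

namespace Pool.Agent.R544.TS

open Finset

variable {D : Dat}

/-- A coloring. -/
abbrev Col : Type := ℕ → Equiv.Perm (Fin 128)

/-- The transition function. -/
def stp (D : Dat) (c : Col) (v : ℕ) (a : Fin 128) : ℕ := (nb D v).getD (c v a : Fin 128) 0

/-- The state reached by reading a word. -/
def rn (D : Dat) (c : Col) (v : ℕ) (w : List (Fin 128)) : ℕ := w.foldl (stp D c) v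

theorem stp_mem (hD : Good D) {c : Col} (v : ℕ) (a : Fin 128) : stp D c v a ∈ nb D v := by
  unfold stp
  rw [List.getD_eq_getElem _ _ (by rw [nb_length hD]; exact (c v a).2)]
  exact List.getElem_mem _

theorem stp_lt (hD : Good D) {c : Col} (v : ℕ) (a : Fin 128) : stp D c v a < nV D :=
  nb_lt hD (stp_mem hD v a)

theorem rn_eq (hD : Good D) (c : Coloring (inst D)) (w : List (Fin (inst D).1)) :
    ∀ v < nV D, run (inst D) c v w = rn D c v w := by
  induction w with
  | nil => intro v _; rfl
  | cons a w ih =>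
    intro v hv
    have h1 : step (inst D) c v a = stp D c v a := by
      unfold step stp
      rw [inst_getD hv]
      rfl
    have h2 : run (inst D) c v (a :: w) = run (inst D) c (step (inst D) c v a) w := rfl
    exact h2.trans ((congrArg (fun x => run (inst D) c x w) h1).trans (ih _ (stp_lt hD v a)))

theorem sync_iff (hD : Good D) (c : Col) : Synchronizing (inst D) c ↔
    ∃ (w : List (Fin 128)) (t : ℕ), ∀ v < nV D, rn D c v w = t := by
  unfold Synchronizing
  rw [inst_length]
  constructor
  · rintro ⟨w, t, h⟩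
    exact ⟨w, t, fun v hv => by rw [← h v hv]; exact (rn_eq hD c w v hv).symm⟩
  · rintro ⟨w, t, h⟩
    exact ⟨w, t, fun v hv => by rw [← h v hv]; exact rn_eq hD c w v hv⟩

theorem exists_stp (hD : Good D) {c : Col} {v u : ℕ} (hu : u ∈ nb D v) :
    ∃ a : Fin 128, stp D c v a = u := by
  obtain ⟨i, hi, rfl⟩ := List.getElem_of_mem hu
  have hi' := hi
  rw [nb_length hD] at hi'
  refine ⟨(c v).symm ⟨i, hi'⟩, ?_⟩
  unfold stp
  rw [(c v).apply_symm_apply, List.getD_eq_getElem _ _ hi]

theorem rn_append (c : Col) (v : ℕ) (w w' : List (Fin 128)) :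
    rn D c v (w ++ w') = rn D c (rn D c v w) w' := by
  unfold rn
  rw [List.foldl_append]

/-- Reachability. -/
def R (D : Dat) (c : Col) (x y : ℕ) : Prop := ∃ w : List (Fin 128), rn D c x w = y

theorem R_refl {c : Col} (x : ℕ) : R D c x x := ⟨[], rfl⟩

theorem R_trans {c : Col} {x y z : ℕ} (h : R D c x y) (h' : R D c y z) : R D c x z := by
  obtain ⟨w, rfl⟩ := h
  obtain ⟨w', rfl⟩ := h'
  exact ⟨w ++ w', rn_append c x w w'⟩

theorem R_edge (hD : Good D) {c : Col} {v u : ℕ} (_ : v < nV D)
    (hu : u ∈ nb D v) : R D c v u := by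
  obtain ⟨a, ha⟩ := exists_stp hD (c := c) hu
  exact ⟨[a], ha⟩

theorem zero_mem_nb (v : ℕ) : 0 ∈ nb D v := by
  unfold nb
  split_ifs <;> simp [mem_rep]

theorem R_low (hD : Good D) {c : Col} {l : ℕ} (hl : l ≤ D.L) :
    R D c 0 (2 * l) ∧ R D c 0 (2 * l + 1) := by
  induction l with
  | zero =>
    refine ⟨R_refl 0, R_edge hD (by unfold nV; omega) ?_⟩
    unfold nb
    split_ifs <;> simp [mem_rep]
  | succ l ih =>
    have h := (ih (by omega)).1
    have hv : 2 * l < nV D := by unfold nV; omega
    have h1 : ∀ u, u = 2 * l + 2 ∨ u = 2 * l + 3 → u ∈ nb D (2 * l) := by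
      intro u hu
      unfold nb
      rw [if_pos (by omega), show 2 * l / 2 = l by omega]
      simp only [List.mem_append, mem_rep]
      omega
    exact ⟨R_trans h (R_edge hD hv (h1 _ (Or.inl (by ring)))),
      R_trans h (R_edge hD hv (h1 _ (Or.inr (by ring))))⟩

theorem R_all (hD : Good D) {c : Col} {x y : ℕ} (hx : x < nV D) (hy : y < nV D) :
    R D c x y := by
  refine R_trans (R_edge hD hx (zero_mem_nb x)) ?_
  by_cases h : y < 2 * (D.L + 1)
  · have h1 := R_low hD (c := c) (l := y / 2) (by omega)
    have : y = 2 * (y / 2) ∨ y = 2 * (y / 2) + 1 := by omega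
    rcases this with e | e <;> rw [e]
    · exact h1.1
    · exact h1.2
  · unfold nV at hy
    obtain ⟨l, hl, hm⟩ := hD.ex (y - 2 * (D.L + 1)) (by omega)
    refine R_trans (R_low hD (c := c) (l := l) hl.le).1 (R_edge hD (by unfold nV; omega) ?_)
    unfold nb
    rw [if_pos (by omega), show 2 * l / 2 = l by omega]
    simp only [List.mem_append, List.mem_map]
    refine Or.inl (Or.inl (Or.inr ⟨_, hm, by omega⟩))

/-- The transition function on the finite set of the vertices. -/
def dl (hD : Good D) (c : Col) (v : Fin (nV D)) (a : Fin 128) : Fin (nV D) :=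
  ⟨stp D c v a, stp_lt hD v a⟩

theorem foldl_dl (hD : Good D) (c : Col) (w : List (Fin 128)) (v : Fin (nV D)) :
    ((w.foldl (dl hD c) v : Fin (nV D)) : ℕ) = rn D c v w := by
  induction w generalizing v with
  | nil => rfl
  | cons a w ih =>
    rw [List.foldl_cons, ih]
    rfl

theorem sum_list_getD (f : ℕ → ℕ) (l : List ℕ) :
    ∑ e ∈ range l.length, f (l.getD e 0) = (l.map f).sum := by
  induction l with
  | nil => rfl
  | cons a l ih =>
    rw [List.length_cons, sum_range_succ', List.map_cons, List.sum_cons, ← ih]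
    simp only [List.getD_cons_zero, List.getD_cons_succ]
    exact Nat.add_comm _ _

theorem sum_stp (hD : Good D) (c : Col) (v : ℕ) (f : ℕ → ℕ) :
    ∑ a : Fin 128, f (stp D c v a) = ((nb D v).map f).sum := by
  unfold stp
  rw [← sum_list_getD, nb_length hD]
  rw [← Fin.sum_univ_eq_sum_range (fun e => f ((nb D v).getD e 0)) 128]
  exact Equiv.sum_comp (c v) (fun e : Fin 128 => f ((nb D v).getD e 0))

theorem statio (hD : Good D) (c : Col) (u : Fin (nV D)) :
    ∑ a, ∑ v, (if dl hD c v a = u then wt D v else 0) = Fintype.card (Fin 128) * wt D u := by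
  rw [sum_comm, Fintype.card_fin, ← infl_all hD u.2]
  unfold infl
  rw [← Fin.sum_univ_eq_sum_range (fun v => wt D v * (nb D v).count (u : ℕ)) (nV D)]
  refine sum_congr rfl fun v _ => ?_
  have h1 : ∀ a, (if dl hD c v a = u then wt D v else 0) =
      (fun x : ℕ => if x = u then wt D v else 0) (stp D c v a) := by
    intro a
    simp only [dl, Fin.ext_iff]
  refine (sum_congr rfl (fun a _ => h1 a)).trans ?_
  rw [sum_stp hD c v (fun x : ℕ => if x = u then wt D v else 0)]
  generalize nb D v = l
  induction l with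
  | nil => simp
  | cons b l ih =>
    rw [List.map_cons, List.sum_cons, ih, List.count_cons, Nat.mul_add, Nat.add_comm]
    congr 1
    by_cases h : b = u
    · simp [h]
    · simp [h]

/-- If the digraph is not totally synchronizing, then the system can be balanced. -/
theorem bal_of_not (hD : Good D) (h : ¬ TotSync (inst D)) : Bal D := by
  have h1 : ∃ c : Col, ¬ Synchronizing (inst D) c := by
    by_contra hcon
    push Not at hcon
    exact h ⟨isOutRegular_inst hD, hcon⟩
  obtain ⟨c, hc⟩ := h1
  rw [sync_iff hD] at hc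
  have h0 : 0 < nV D := by unfold nV; omega
  have : Nonempty (Fin (nV D)) := ⟨⟨0, h0⟩⟩
  have hcon : ∀ x y : Fin (nV D), ∃ l : List (Fin 128), l.foldl (dl hD c) x = y := by
    intro x y
    obtain ⟨w, hw⟩ := R_all hD (c := c) x.2 y.2
    exact ⟨w, Fin.ext (by rw [foldl_dl, hw])⟩
  have hns : ∀ l : List (Fin 128), ∃ x y, l.foldl (dl hD c) x ≠ l.foldl (dl hD c) y := by
    intro l
    by_contra hcon
    push Not at hcon
    refine hc ⟨l, rn D c 0 l, fun v hv => ?_⟩
    have := congrArg (fun x : Fin (nV D) => (x : ℕ)) (hcon ⟨v, hv⟩ ⟨0, h0⟩)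
    simpa only [foldl_dl] using this
  have hz : ∑ v : Fin (nV D), wt D v < 3 * wt D ((⟨0, h0⟩ : Fin (nV D)) : ℕ) := by
    rw [Fin.sum_univ_eq_sum_range (fun v => wt D v) (nV D)]
    exact sum_wt_lt hD
  obtain ⟨f, hf⟩ := exists_half (V := Fin (nV D)) (S := Fin 128) (δ := dl hD c)
    (w := fun v => wt D v) (statio hD c) (fun v => wt_pos hD v.2) hcon hns ⟨0, h0⟩ hz
  refine bal_of_sum hD (s := fun v => if h : v < nV D then (if f ⟨v, h⟩ = true then 1 else -1)
    else 1) ?_ ?_
  · intro i
    split_ifs
    · exact Or.inl rfl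
    · exact Or.inr rfl
    · exact Or.inl rfl
  · rw [← Fin.sum_univ_eq_sum_range (fun v => (if h : v < nV D then
      (if f ⟨v, h⟩ = true then (1 : ℤ) else -1) else 1) * (wt D v : ℤ)) (nV D)]
    have e : ∀ v : Fin (nV D), (if h : (v : ℕ) < nV D then
        (if f ⟨v, h⟩ = true then (1 : ℤ) else -1) else 1) * (wt D v : ℤ) =
        2 * ((if f v = true then wt D v else 0 : ℕ) : ℤ) - (wt D v : ℤ) := by
      intro v
      rw [dif_pos v.2]
      by_cases hv : f v = true
      · have : f ⟨(v : ℕ), v.2⟩ = true := hv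
        simp only [this, if_true]
        ring
      · have : ¬ f ⟨(v : ℕ), v.2⟩ = true := hv
        rw [if_neg this, if_neg hv]
        simp
    simp only [e]
    rw [sum_sub_distrib, ← mul_sum, sub_eq_zero]
    exact_mod_cast hf

/-! ### From a balanced signing to a coloring -/

/-- The side of a vertex. -/
def side (D : Dat) (s : ℕ → ℤ) (v : ℕ) : ℤ :=
  if v < 2 * (D.L + 1) then (if v % 2 = 0 then 1 else -1) else s (v - 2 * (D.L + 1))

theorem side_or {s : ℕ → ℤ} (hs : ∀ i, s i = 1 ∨ s i = -1) (v : ℕ) :
    side D s v = 1 ∨ side D s v = -1 := by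
  unfold side
  split_ifs
  · exact Or.inl rfl
  · exact Or.inr rfl
  · exact hs _

theorem sum_side {s : ℕ → ℤ} (h : ∀ l < D.L, ((D.M l).map s).sum = 0) (v : ℕ) :
    ((nb D v).map (side D s)).sum = 0 := by
  have h0 : side D s 0 = 1 := by
    unfold side
    rw [if_pos (by omega), if_pos (by omega)]
  have h1 : side D s 1 = -1 := by
    unfold side
    rw [if_pos (by omega), if_neg (by omega)]
  unfold nb
  split_ifs with hv
  · simp only [List.map_append, List.sum_append, sum_rep, h0, h1, List.map_map]
    have h2 : side D s (2 * (v / 2) + 2) = 1 := by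
      unfold side
      rw [if_pos (by omega), if_pos (by omega)]
    have h3 : side D s (2 * (v / 2) + 3) = -1 := by
      unfold side
      rw [if_pos (by omega), if_neg (by omega)]
    have h4 : (side D s ∘ fun i => 2 * (D.L + 1) + i) = s := by
      funext i
      simp only [Function.comp]
      unfold side
      rw [if_neg (by omega), Nat.add_sub_cancel_left]
    rw [h2, h3, h4, h _ (by omega)]
    norm_num
  · simp only [List.map_append, List.sum_append, sum_rep, h0, h1]
    norm_num

theorem sum_eq_card (f : Fin 128 → ℤ) (hf : ∀ e, f e = 1 ∨ f e = -1) (h : ∑ e, f e = 0)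
    (t : ℤ) (ht : t = 1 ∨ t = -1) : (univ.filter (fun e => f e = t)).card = 64 := by
  have h1 : ∑ e, (f e * t + 1) = ∑ e, (if f e = t then 2 else 0 : ℤ) := by
    refine sum_congr rfl fun e _ => ?_
    rcases hf e with h | h <;> rcases ht with h' | h' <;> rw [h, h'] <;> norm_num
  rw [sum_add_distrib, ← sum_mul, h, ← sum_filter, sum_const, sum_const, card_univ,
    Fintype.card_fin] at h1
  simp at h1
  omega

theorem exists_perm (hD : Good D) {s : ℕ → ℤ} (hs : ∀ i, s i = 1 ∨ s i = -1)
    (h : ∀ l < D.L, ((D.M l).map s).sum = 0) (v : ℕ) :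
    ∃ p : Equiv.Perm (Fin 128), ∀ a : Fin 128,
      side D s ((nb D v).getD (p a : Fin 128) 0) = side D s v ↔ (a : ℕ) < 64 := by
  classical
  have h1 : ∑ e : Fin 128, side D s ((nb D v).getD e 0) = 0 := by
    have h2 : ∀ l : List ℕ, ∑ e ∈ range l.length, side D s (l.getD e 0) =
        (l.map (side D s)).sum := by
      intro l
      induction l with
      | nil => rfl
      | cons a l ih =>
        rw [List.length_cons, sum_range_succ', List.map_cons, List.sum_cons, ← ih]
        simp only [List.getD_cons_zero, List.getD_cons_succ]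
        exact add_comm _ _
    rw [Fin.sum_univ_eq_sum_range (fun e => side D s ((nb D v).getD e 0)) 128,
      ← nb_length hD v, h2, sum_side h]
  have h3 := sum_eq_card _ (fun e => side_or hs _) h1 _ (side_or (D := D) hs v)
  have h4 : (univ.filter (fun a : Fin 128 => (a : ℕ) < 64)).card = 64 := by decide
  have e : {a : Fin 128 // (a : ℕ) < 64} ≃
      {e : Fin 128 // side D s ((nb D v).getD e 0) = side D s v} := by
    refine Fintype.equivOfCardEq ?_
    rw [Fintype.card_subtype, Fintype.card_subtype, h3, h4]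
  refine ⟨e.extendSubtype, fun a => ⟨fun ha => ?_, fun ha => ?_⟩⟩
  · by_contra hcon
    exact e.extendSubtype_not_mem a hcon ha
  · exact e.extendSubtype_mem a ha

/-- If the system can be balanced, then the digraph is not totally synchronizing. -/
theorem not_of_bal (hD : Good D) (h : Bal D) : ¬ TotSync (inst D) := by
  obtain ⟨s, hs, h⟩ := h
  rintro ⟨-, hT⟩
  choose p hp using exists_perm hD hs h
  obtain ⟨w, t, hw⟩ := (sync_iff hD p).1 (hT p)
  have h0 : 0 < nV D := by unfold nV; omega
  have h1 : 1 < nV D := by unfold nV; omega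
  have key : ∀ (w : List (Fin 128)) (x y : ℕ), x < nV D → y < nV D →
      side D s x ≠ side D s y → side D s (rn D p x w) ≠ side D s (rn D p y w) := by
    intro w
    induction w with
    | nil => exact fun x y _ _ h => h
    | cons a w ih =>
      intro x y hx hy hxy
      refine ih _ _ (stp_lt hD x a) (stp_lt hD y a) ?_
      have hx' : side D s (stp D p x a) = side D s x ↔ (a : ℕ) < 64 := hp x a
      have hy' : side D s (stp D p y a) = side D s y ↔ (a : ℕ) < 64 := hp y a
      have a1 := side_or (D := D) hs x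
      have a2 := side_or (D := D) hs y
      have a3 := side_or (D := D) hs (stp D p x a)
      have a4 := side_or (D := D) hs (stp D p y a)
      generalize side D s (stp D p x a) = b1 at *
      generalize side D s (stp D p y a) = b2 at *
      generalize side D s x = b3 at *
      generalize side D s y = b4 at *
      by_cases ha : (a : ℕ) < 64
      · rw [hx'.2 ha, hy'.2 ha]
        exact hxy
      · have c1 : b1 ≠ b3 := fun hc => ha (hx'.1 hc)
        have c2 : b2 ≠ b4 := fun hc => ha (hy'.1 hc)
        omega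
  refine key w 0 1 h0 h1 ?_ ?_
  · unfold side
    rw [if_pos (by omega), if_pos (by omega), if_pos (by omega), if_neg (by omega)]
    decide
  · rw [hw 0 h0, hw 1 h1]

theorem not_totSync_iff (hD : Good D) : ¬ TotSync (inst D) ↔ Bal D :=
  ⟨bal_of_not hD, not_of_bal hD⟩

end Pool.Agent.R544.TS
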