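import Mathlib

/-!
# Totally synchronizing digraphs: the problem
-/

namespace Pool.Agent.R544.TS

/-- An instance `(k, [N₀, …, N_{n-1}])`: the digraph with the vertices `0, …, n - 1` in which the
outgoing edges of the vertex `v` are numbered `0, …, k - 1`, and `N_v` is the list of their heads
(loops and parallel edges are allowed). -/
abbrev Inst : Type := ℕ × List (List ℕ)

/-- The instance is a `k`-out-regular digraph, `k ≥ 1`, with at least one vertex. -/
def IsOutRegular (I : Inst) : Prop :=
  1 ≤ I.1 ∧ I.2 ≠ [] ∧ ∀ N ∈ I.2, N.length = I.1 ∧ ∀ x ∈ N, x < I.2.length

/-- A coloring: for each vertex `v` a bijection from the letters (the elements of `Fin k`) to the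
numbers of the outgoing edges of `v`. -/
abbrev Coloring (I : Inst) : Type := ℕ → Equiv.Perm (Fin I.1)

/-- The transition function of the automaton: the head of the edge leaving `v` with the letter
`a`. -/
def step (I : Inst) (c : Coloring I) (v : ℕ) (a : Fin I.1) : ℕ := (I.2.getD v []).getD (c v a) 0

/-- The state reached from `v` by reading the word `w`. -/
def run (I : Inst) (c : Coloring I) (v : ℕ) (w : List (Fin I.1)) : ℕ := w.foldl (step I c) v

/-- The automaton is synchronizing: some word takes all states to the same state. -/
def Synchronizing (I : Inst) (c : Coloring I) : Prop :=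
  ∃ (w : List (Fin I.1)) (t : ℕ), ∀ v < I.2.length, run I c v w = t

/-- The instance is a totally synchronizing digraph: all its colorings are synchronizing. -/
def TotSync (I : Inst) : Prop := IsOutRegular I ∧ ∀ c : Coloring I, Synchronizing I c

end Pool.Agent.R544.TS
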