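import Pool.Agent.R544.TF.Red
import Pool.Agent.R544.EN.Main
import Pool.Agent.R544.TS.Corr

/-!
# Totally synchronizing digraphs: the reduction and membership in coNP
-/

set_option autoImplicit false

namespace Pool.Agent.R544.TS

open Pool.Agent.NPC Pool.Agent.R544
open Pool.Agent.R544.TF (pp_exlt pp_alllt uPoly_3m)

/-- The number of the positive items. -/
def kk (φ : F3) : ℕ := 3 * φ.length + 1

/-- The item of an occurrence of a literal. -/
def it (φ : F3) (o : ℕ) : ℕ := if (lt φ o).1 = true then (lt φ o).2 else kk φ + (lt φ o).2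

/-- The lists of the system. -/
def mm (φ : F3) (l : ℕ) : List ℕ :=
  if l < kk φ then [l, l, l, kk φ + l, kk φ + l, kk φ + l]
  else [it φ (3 * (l - kk φ)), it φ (3 * (l - kk φ) + 1), it φ (3 * (l - kk φ) + 2),
    3 * φ.length, 2 * kk φ + 2 * (l - kk φ), 2 * kk φ + 2 * (l - kk φ) + 1]

/-- The system. -/
def dat (φ : F3) : Dat where
  n := 2 * kk φ + 2 * φ.length
  L := kk φ + φ.length
  M := mm φ

theorem it_lt {φ : F3} (hb : Bounded3 φ) {o : ℕ} (ho : o < 3 * φ.length) : it φ o < 2 * kk φ := by
  have := bounded_lt hb ho
  unfold it kk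
  split_ifs <;> omega

theorem good_dat {φ : F3} (hb : Bounded3 φ) : Good (dat φ) := by
  refine ⟨fun l _ => ?_, fun l hl i hi => ?_, fun i hi => ?_⟩
  · change (mm φ l).length = 6
    unfold mm
    split_ifs <;> rfl
  · change l < kk φ + φ.length at hl
    change i ∈ mm φ l at hi
    change i < 2 * kk φ + 2 * φ.length
    unfold mm at hi
    split_ifs at hi with h
    · simp only [List.mem_cons, List.not_mem_nil, or_false] at hi
      omega
    · have h1 := it_lt hb (o := 3 * (l - kk φ)) (by omega)
      have h2 := it_lt hb (o := 3 * (l - kk φ) + 1) (by omega)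
      have h3 := it_lt hb (o := 3 * (l - kk φ) + 2) (by omega)
      simp only [List.mem_cons, List.not_mem_nil, or_false] at hi
      unfold kk at *
      omega
  · change i < 2 * kk φ + 2 * φ.length at hi
    change ∃ l < kk φ + φ.length, i ∈ mm φ l
    by_cases h : i < kk φ
    · refine ⟨i, by omega, ?_⟩
      unfold mm
      rw [if_pos h]
      simp
    · by_cases h' : i < 2 * kk φ
      · refine ⟨i - kk φ, by omega, ?_⟩
        unfold mm
        rw [if_pos (by omega)]
        simp only [List.mem_cons, List.not_mem_nil, or_false]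
        omega
      · refine ⟨kk φ + (i - 2 * kk φ) / 2, by omega, ?_⟩
        unfold mm
        rw [if_neg (by omega)]
        simp only [List.mem_cons, List.not_mem_nil, or_false]
        omega

theorem bal_iff {φ : F3} (hb : Bounded3 φ) : Bal (dat φ) ↔ SAT3 φ := by
  rw [sat3_iff]
  constructor
  · rintro ⟨s, hs, h⟩
    have hneg : ∀ v < kk φ, s (kk φ + v) = -s v := by
      intro v hv
      have := h v (by change v < kk φ + φ.length; omega)
      change ((mm φ v).map s).sum = 0 at this
      unfold mm at this
      rw [if_pos hv] at this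
      simp only [List.map_cons, List.map_nil, List.sum_cons, List.sum_nil] at this
      omega
    refine ⟨fun v => decide (s v ≠ s (3 * φ.length)), fun j hj => ?_⟩
    by_contra hcon
    push Not at hcon
    have h1 := h (kk φ + j) (by change kk φ + j < kk φ + φ.length; omega)
    change ((mm φ (kk φ + j)).map s).sum = 0 at h1
    unfold mm at h1
    rw [if_neg (by omega), Nat.add_sub_cancel_left] at h1
    simp only [List.map_cons, List.map_nil, List.sum_cons, List.sum_nil] at h1
    have key : ∀ o < 3 * φ.length, o / 3 = j → s (it φ o) = s (3 * φ.length) := by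
      intro o ho ho'
      have h2 := hcon o ho ho'
      have h3 := bounded_lt hb ho
      have h4 := hneg (lt φ o).2 (by unfold kk; omega)
      have h5 := hs (lt φ o).2
      have h6 := hs (3 * φ.length)
      unfold it
      cases h7 : (lt φ o).1
      · rw [h7] at h2
        simp only [ne_eq, decide_not, Bool.not_eq_false, Bool.not_eq_true'] at h2
        have h8 : s (lt φ o).2 ≠ s (3 * φ.length) := by
          simpa using h2
        rw [if_neg (by simp), h4]
        omega
      · rw [h7] at h2
        rw [if_pos rfl]
        simpa using h2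
    rw [key (3 * j) (by omega) (by omega), key (3 * j + 1) (by omega) (by omega),
      key (3 * j + 2) (by omega) (by omega)] at h1
    have a1 := hs (3 * φ.length)
    have a2 := hs (2 * kk φ + 2 * j)
    have a3 := hs (2 * kk φ + 2 * j + 1)
    omega
  · rintro ⟨τ, hτ⟩
    let p : ℕ → ℤ := fun v => if v = 3 * φ.length then -1 else if τ v = true then 1 else -1
    have hp : ∀ v, p v = 1 ∨ p v = -1 := by
      intro v
      simp only [p]
      split_ifs
      · exact Or.inr rfl
      · exact Or.inl rfl
      · exact Or.inr rfl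
    let q : ℕ → ℤ := fun o => if (lt φ o).1 = true then p (lt φ o).2 else -p (lt φ o).2
    have hq : ∀ o, q o = 1 ∨ q o = -1 := by
      intro o
      have := hp (lt φ o).2
      simp only [q]
      split_ifs <;> omega
    let A : ℕ → ℤ := fun j => q (3 * j) + q (3 * j + 1) + q (3 * j + 2)
    let s : ℕ → ℤ := fun i => if i < kk φ then p i else if i < 2 * kk φ then -p (i - kk φ)
      else if (i - 2 * kk φ) % 2 = 0 then (if A ((i - 2 * kk φ) / 2) ≤ 1 then 1 else -1)
      else (if A ((i - 2 * kk φ) / 2) = -1 then 1 else -1)
    have hsp : ∀ v < kk φ, s v = p v := by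
      intro v hv
      simp only [s]
      rw [if_pos hv]
    have hsn : ∀ v < kk φ, s (kk φ + v) = -p v := by
      intro v hv
      simp only [s]
      rw [if_neg (by omega), if_pos (by omega), Nat.add_sub_cancel_left]
    have hqt : ∀ o, (lt φ o).1 = true → q o = p (lt φ o).2 := fun o h => if_pos h
    have hqf : ∀ o, ¬ (lt φ o).1 = true → q o = -p (lt φ o).2 := fun o h => if_neg h
    have hpF : p (3 * φ.length) = -1 := if_pos rfl
    have hpv : ∀ v, v < 3 * φ.length → p v = if τ v = true then 1 else -1 :=
      fun v hv => if_neg (by omega)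
    refine ⟨s, ?_, ?_⟩
    · intro i
      have h1 := hp i
      have h2 := hp (i - kk φ)
      simp only [s]
      split_ifs <;> omega
    · intro l hl
      change l < kk φ + φ.length at hl
      change ((mm φ l).map s).sum = 0
      unfold mm
      by_cases h : l < kk φ
      · rw [if_pos h]
        simp only [List.map_cons, List.map_nil, List.sum_cons, List.sum_nil]
        rw [hsp l h, hsn l h]
        ring
      · obtain ⟨j, rfl⟩ : ∃ j, l = kk φ + j := ⟨l - kk φ, by omega⟩
        rw [if_neg h, Nat.add_sub_cancel_left]
        simp only [List.map_cons, List.map_nil, List.sum_cons, List.sum_nil]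
        have hs' : ∀ o < 3 * φ.length, s (it φ o) = q o := by
          intro o ho
          have h1 := bounded_lt hb ho
          have h2 : (lt φ o).2 < kk φ := by unfold kk; omega
          unfold it
          split_ifs with h3
          · rw [hsp _ h2, hqt o h3]
          · rw [hsn _ h2, hqf o h3]
        have h0 : s (3 * φ.length) = -1 := by
          rw [hsp _ (by unfold kk; omega), hpF]
        have h1 : s (2 * kk φ + 2 * j) = if A j ≤ 1 then 1 else -1 := by
          simp only [s]
          rw [if_neg (by omega), if_neg (by omega), if_pos (by omega),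
            show (2 * kk φ + 2 * j - 2 * kk φ) / 2 = j by omega]
        have h2 : s (2 * kk φ + 2 * j + 1) = if A j = -1 then 1 else -1 := by
          simp only [s]
          rw [if_neg (by omega), if_neg (by omega), if_neg (by omega),
            show (2 * kk φ + 2 * j + 1 - 2 * kk φ) / 2 = j by omega]
        rw [hs' _ (by omega), hs' _ (by omega), hs' _ (by omega), h0, h1, h2]
        have h3 : ∃ o, (o = 3 * j ∨ o = 3 * j + 1 ∨ o = 3 * j + 2) ∧ q o = 1 := by
          obtain ⟨o, ho, ho', h3⟩ := hτ j (by omega)
          refine ⟨o, by omega, ?_⟩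
          have h4 := bounded_lt hb ho
          by_cases h5 : (lt φ o).1 = true
          · rw [hqt o h5, hpv _ h4, h3, if_pos h5]
          · rw [hqf o h5, hpv _ h4, h3, if_neg h5]
            norm_num
        have h4 : A j = q (3 * j) + q (3 * j + 1) + q (3 * j + 2) := rfl
        have h5 := hq (3 * j)
        have h6 := hq (3 * j + 1)
        have h7 := hq (3 * j + 2)
        have h8 : q (3 * j) = 1 ∨ q (3 * j + 1) = 1 ∨ q (3 * j + 2) = 1 := by
          obtain ⟨o, rfl | rfl | rfl, h9⟩ := h3
          · exact Or.inl h9
          · exact Or.inr (Or.inl h9)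
          · exact Or.inr (Or.inr h9)
        rw [h4]
        split_ifs <;> omega

/-- The reduction. -/
def red (φ : F3) : Inst := inst (dat φ)

theorem red_correct {φ : F3} (hb : Bounded3 φ) : SAT3 φ ↔ ¬ TotSync (red φ) := by
  unfold red
  rw [not_totSync_iff (good_dat hb), bal_iff hb]

theorem poly_kk {α : Type} [TEnc α] {f : α → F3} (hf : NPC.Poly f) :
    NPC.Poly (fun a => kk (f a)) := by
  unfold kk
  fun_prop

theorem poly_it {α : Type} [TEnc α] {f : α → F3} {g : α → ℕ} (hf : NPC.Poly f)
    (hg : NPC.Poly g) : NPC.Poly (fun a => it (f a) (g a)) := by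
  unfold it kk
  have h : PP (fun a => (lt (f a) (g a)).1 = true) := PP.eq (by fun_prop) (by fun_prop)
  exact PP.ite h (by fun_prop) (by fun_prop)

attribute [fun_prop] poly_kk poly_it

theorem poly_mm {α : Type} [TEnc α] {f : α → F3} {g : α → ℕ} (hf : NPC.Poly f)
    (hg : NPC.Poly g) : NPC.Poly (fun a => mm (f a) (g a)) := by
  unfold mm
  exact PP.ite (PP.lt (by fun_prop) (by fun_prop)) (by fun_prop) (by fun_prop)

attribute [fun_prop] poly_mm

theorem poly_rep (k : ℕ) {α : Type} [TEnc α] {g : α → ℕ} (hg : NPC.Poly g) :
    NPC.Poly (fun a => rep k (g a)) := by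
  unfold rep
  exact NPC.Poly.map (l := fun _ : α => List.range k) (F := fun a _ => g a) (NPC.Poly.const _)
    (hg.comp (by fun_prop))

attribute [fun_prop] poly_rep

theorem poly_nb {α : Type} [TEnc α] {f : α → F3} {g : α → ℕ} (hf : NPC.Poly f)
    (hg : NPC.Poly g) : NPC.Poly (fun a => nb (dat (f a)) (g a)) := by
  have h1 : NPC.Poly (fun a => (dat (f a)).L) := by
    unfold dat
    fun_prop
  have h2 : NPC.Poly (fun a => (dat (f a)).M (g a / 2)) := by
    unfold dat
    fun_prop
  unfold nb
  refine PP.ite (PP.lt hg (by fun_prop)) ?_ (by fun_prop)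
  have h3 : NPC.Poly (fun a => ((dat (f a)).M (g a / 2)).map
      (fun i => 2 * ((dat (f a)).L + 1) + i)) := by
    refine NPC.Poly.map (l := fun a => (dat (f a)).M (g a / 2))
      (F := fun a i => 2 * ((dat (f a)).L + 1) + i) h2 ?_
    have h4 : NPC.Poly (fun x : α × ℕ => (dat (f x.1)).L) := h1.comp (by fun_prop)
    fun_prop
  fun_prop

theorem poly_red : NPC.Poly red := by
  unfold red inst
  have h1 : UPoly (fun φ : F3 => nV (dat φ)) := by
    unfold nV dat kk
    simp only
    have h := uPoly_3m (f := fun φ : F3 => φ) NPC.Poly.id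
    have hl : UPoly (fun φ : F3 => φ.length) := UPoly.length NPC.Poly.id
    exact UPoly.add (UPoly.mul (UPoly.const 2) (UPoly.add (UPoly.add (UPoly.add h (UPoly.const 1))
      hl) (UPoly.const 1))) (UPoly.add (UPoly.mul (UPoly.const 2) (UPoly.add h (UPoly.const 1)))
      (UPoly.mul (UPoly.const 2) hl))
  refine NPC.Poly.pair (NPC.Poly.const 128) ?_
  exact NPC.Poly.map (l := fun φ : F3 => List.range (nV (dat φ))) (F := fun φ v => nb (dat φ) v)
    h1.range (poly_nb (by fun_prop) (by fun_prop))

theorem hardPr_TS : HardPr (fun I : Inst => I.1 = 128 ∧ IsOutRegular I)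
    (fun I : Inst => ¬ TotSync I) :=
  hardPr_SAT3b.trans poly_red (fun _ h => ⟨rfl, isOutRegular_inst (good_dat h.2.1)⟩)
    fun _ h => red_correct h.2.1

end Pool.Agent.R544.TS
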